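import Pool.Agent.K9h55.CD.Fin

/-!
# Generic convex drawings of `K_n` with only quadratically many triangular faces

The drawing has the vertices `(4^i, 16^i)`, `i < n`, on a parabola. The triangular faces with a corner
at a vertex are the `n (n - 3)` ones which every convex drawing has. A triangular face without corners
at the vertices is bounded by three edges `{i₁, i₄}`, `{i₂, i₅}`, `{i₃, i₆}`, `i₁ < i₂ < … < i₆`, which
cross pairwise. The crossing point of the first two is to the left of the vertical line `ℓ` through the
vertex `i₃`, the crossing points with the third edge are to the right of it, and so `ℓ` meets the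
face. If one of the equations `i₁ = 0`, `i₃ = i₂ + 1`, `i₅ = i₄ + 1`, `i₆ = n - 1` is wrong, then one of
the edges `{k, i₄}` (`k < i₁`), `{k, i₅}` (`i₂ < k < i₃`), `{i₂, k}` (`i₄ < k < i₅`) meets `ℓ` inside the
face, or the edge `{i₃, k}` (`k > i₆`) meets the face, a contradiction. So there are at most
`(n - 4).choose 2` of them, one for each admissible pair `i₂`, `i₄`.
-/

set_option autoImplicit false

namespace Pool.Agent.Results.MP_c17047_co.ExponentialDrawing

open Pool.Agent.K9h55.CD

/-- **For every `n ≥ 4` there is a generic convex drawing of `K_n` with at most
`n (n - 3) + (n - 4).choose 2` triangular faces.** `ConvexIndependent ℝ p` says that the vertices are in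
strictly convex position, `Generic p` that no three edges have a common point which is not a vertex,
and `triFaces p` is the set of the bounded faces which are open triangles. -/
theorem result (n : ℕ) (hn : 4 ≤ n) :
    ∃ p : Fin n → ℝ × ℝ, ConvexIndependent ℝ p ∧ Generic p ∧ (triFaces p).Finite ∧
      (triFaces p).ncard ≤ n * (n - 3) + (n - 4).choose 2 :=
  ⟨pp n, convexIndependent_pp n, generic_pp n, main n hn⟩

end Pool.Agent.Results.MP_c17047_co.ExponentialDrawing
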